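import Mathlib
import Pool.Agent.H4.Thresh

namespace Pool.Agent.Results.MP_dfc8ea_co.Counter

open Finset SimpleGraph Pool.Agent.H4

variable {U : Type} (H : SimpleGraph U)

/-- `δ(G) ≥ α |G|`. -/
def MinDeg {V : Type} [Fintype V] (G : SimpleGraph V) (α : ℝ) : Prop :=
  ∀ v, α * Fintype.card V ≤ (G.neighborSet v).ncard

/-- `G` is maximal `H`-free. -/
def MaxFree {V : Type} (G : SimpleGraph V) : Prop :=
  H.Free G ∧ ∀ u v, u ≠ v → ¬G.Adj u v → H ⊑ G ⊔ edge u v

/-- `G` is a blowup of `F`: the fibres of `π` are the nonempty independent classes. -/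
def IsBlowup {V W : Type} (G : SimpleGraph V) (F : SimpleGraph W) : Prop :=
  ∃ π : V → W, Function.Surjective π ∧ ∀ u v, G.Adj u v ↔ F.Adj (π u) (π v)

/-- The homomorphism threshold. -/
noncomputable def δhom : ℝ := sInf {α | 0 ≤ α ∧ ∃ (W : Type) (_ : Fintype W) (F : SimpleGraph W),
  H.Free F ∧ ∀ (V : Type) [Fintype V] (G : SimpleGraph V), H.Free G → MinDeg G α → Nonempty (G →g F)}

/-- The blowup threshold. -/
noncomputable def δB : ℝ := sInf {α | 0 ≤ α ∧ ∃ C : ℕ, ∀ (V : Type) [Fintype V] (G : SimpleGraph V),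
  MaxFree H G → MinDeg G α → ∃ m ≤ C, ∃ F : SimpleGraph (Fin m), IsBlowup G F}

theorem result : ∃ H : SimpleGraph (Fin 9), H.Connected ∧ δhom H ≤ 49 / 100 ∧ 1 / 2 ≤ δB H := by
  classical
  have hc : Thresh.H.Connected := by decide
  refine ⟨Thresh.H, hc, csInf_le ⟨0, fun _ h => h.1⟩ ⟨by norm_num, ?_⟩, le_csInf ⟨1, zero_le_one, 0,
    fun V _ G _ h => ?_⟩ fun α ⟨_, C, h⟩ => ?_⟩
  · let F : SimpleGraph ({K : SimpleGraph (Fin 10000) // Thresh.H.Free K} × Fin 10000) :=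
      ⟨fun x y => x.1 = y.1 ∧ x.1.1.Adj x.2 y.2, ⟨fun x y h => ⟨h.1.symm, h.1 ▸ h.2.symm⟩⟩,
        ⟨fun x h => h.2.ne rfl⟩⟩
    have sm : ∀ (V : Type) [Fintype V] (G : SimpleGraph V), Thresh.H.Free G →
        Fintype.card V ≤ 10000 → Nonempty (G →g F) := fun V _ G hG hV => by
      obtain ⟨e⟩ := Function.Embedding.nonempty_of_card_le (α := V) (β := Fin 10000) (by simpa)
      refine ⟨⟨fun v => (⟨G.map e, fun ⟨f⟩ => hG ?_⟩, e v), fun h => ⟨rfl, map_adj_apply.2 h⟩⟩⟩
      have : ∀ i, ∃ v, e v = f i := fun i => by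
        obtain ⟨j, hj⟩ := (by decide : ∀ i, ∃ j, Thresh.H.Adj i j) i
        obtain ⟨-, a, -, -, h, -⟩ := (map_adj' _ _ _ _).1 (f.toHom.map_adj hj)
        exact ⟨a, h⟩
      choose g hg using this
      exact ⟨⟨⟨g, fun h => map_adj_apply.1 (by rw [hg, hg]; exact f.toHom.map_adj h)⟩,
        fun i j h => f.injective ((hg i).symm.trans ((congrArg e h).trans (hg j)))⟩⟩
    refine ⟨_, inferInstance, F, fun ⟨f⟩ => ?_, fun V _ G hG hd => ?_⟩
    · have : ∀ i j, (f i).1 = (f j).1 := fun i j => by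
        obtain ⟨p⟩ := hc i j
        induction p with
        | nil => rfl
        | cons h _ ih => exact (f.toHom.map_adj h).1.trans ih
      exact (f 0).1.2 ⟨⟨⟨fun i => (f i).2, fun {i j} h => this i 0 ▸ (f.toHom.map_adj h).2⟩,
        fun i j h => f.injective (Prod.ext (this i j) h)⟩⟩
    · by_cases hV : Fintype.card V ≤ 10000
      · exact sm V G hG hV
      obtain ⟨P, h1, -⟩ := Thresh.struct hG (fun v => by
        have := hd v
        rw [Thresh.ncard_eq] at this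
        exact_mod_cast (by linarith : (49 : ℝ) * Fintype.card V ≤ 100 * G.degree v)) (by omega)
      obtain ⟨f⟩ := sm (Bool × Prop) ⊤ (fun ⟨f⟩ => absurd (Fintype.card_le_of_injective _ f.injective)
        (by simp)) (by simp)
      let e := Fintype.equivFin V
      refine ⟨f.comp ⟨fun v => (P v, ∃ w, P v = P w ∧ G.Adj v w ∧ e w < e v), fun {x y} h c => ?_⟩⟩
      simp only [Prod.mk.injEq, eq_iff_iff] at c
      rcases lt_trichotomy (e x) (e y) with l | l | l
      · obtain ⟨w, a, b, d⟩ := c.2.2 ⟨x, c.1.symm, h.symm, l⟩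
        exact lt_asymm l (h1 _ _ _ a c.1 b h ▸ d)
      · exact h.ne (e.injective l)
      · obtain ⟨w, a, b, d⟩ := c.2.1 ⟨y, c.1, h, l⟩
        exact lt_asymm l (h1 _ _ _ a c.1.symm b h.symm ▸ d)
  · have : IsEmpty V := ⟨fun v => by
      have := h v
      rw [Thresh.ncard_eq, one_mul, Nat.cast_le] at this
      exact absurd (G.degree_lt_card_verts v) (not_lt.2 this)⟩
    exact ⟨0, le_rfl, ⊥, isEmptyElim, fun x => x.elim0, isEmptyElim⟩
  · by_contra c
    obtain ⟨V, _, G, h1, h2, h3, h4⟩ := Thresh.lower C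
    obtain ⟨m, hm, F, π, -, h⟩ := h V G ⟨h1, h2⟩ fun v => by
      have : (Fintype.card V : ℝ) ≤ 2 * (G.neighborSet v).ncard := by exact_mod_cast h3 v
      nlinarith [Nat.cast_nonneg (α := ℝ) (Fintype.card V)]
    exact h4 m hm F π h

end Pool.Agent.Results.MP_dfc8ea_co.Counter
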